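import Pool.Agent.Y748.SR.Stm4
import Pool.Agent.Y748.Tent

set_option autoImplicit false

/-! # A nonnegative test function -/

open Finset Filter Topology MeasureTheory

namespace Pool.Agent.Y488.SR

open Pool.Agent.Y748 (tent tent_cont tent_neg tent_zero_of tent_cos)
open Pool.Agent.Y748.SR

/-- the transform of the tent of half width one half -/
theorem rr_tent (x : ℝ) :
    rr (fun a => tent (2 * a)) x = 1 / 2 * Real.sinc (Real.pi * x / 2) ^ 2 := by
  unfold rr
  rw [intervalIntegral.integral_eq_integral_of_support_subset]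
  · have h := MeasureTheory.Measure.integral_comp_mul_left
      (fun u : ℝ => tent u * Real.cos (Real.pi * x * u)) 2
    rw [tent_cos] at h
    have e : ∫ α : ℝ, tent (2 * α) * Real.cos (2 * Real.pi * x * α) =
        ∫ α : ℝ, tent (2 * α) * Real.cos (Real.pi * x * (2 * α)) := by
      congr 1
      funext α
      congr 2
      ring
    rw [e]
    refine h.trans ?_
    rw [smul_eq_mul]
    norm_num
  · intro a ha
    by_contra hcon
    apply ha
    have h1 : 1 ≤ |2 * a| := by
      by_contra h2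
      rw [not_le, abs_lt] at h2
      exact hcon ⟨by linarith [h2.1], by linarith [h2.2]⟩
    show tent (2 * a) * _ = 0
    rw [tent_zero_of h1, zero_mul]

theorem sinc_ge {y : ℝ} (hy : |y| ≤ Real.pi / 2) : 2 / Real.pi ≤ Real.sinc y := by
  have hp := Real.pi_pos
  have h1 : ∀ z : ℝ, 0 ≤ z → z ≤ Real.pi / 2 → 2 / Real.pi ≤ Real.sinc z := by
    intro z hz hz2
    rcases hz.eq_or_lt with h0 | h0
    · rw [← h0, Real.sinc_zero, div_le_one hp]
      linarith [Real.pi_gt_three]
    · rw [Real.sinc_of_ne_zero h0.ne', le_div_iff₀ h0]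
      exact Real.mul_le_sin hz hz2
  rcases abs_cases y with ⟨h2, h3⟩ | ⟨h2, h3⟩
  · exact h1 y h3 (by linarith)
  · rw [← Real.sinc_neg]
    exact h1 (-y) (by linarith) (by linarith)

theorem t_TENT : S_TENT := by
  refine ⟨fun a => tent (2 * a), 1 / 2, by norm_num, by norm_num, ⟨?_, ?_, ?_, 2, ?_⟩, ?_, ?_⟩
  · exact tent_cont.comp (by fun_prop)
  · intro a
    show tent (2 * -a) = tent (2 * a)
    rw [mul_neg, tent_neg]
  · intro a ha
    apply tent_zero_of
    rw [abs_mul, abs_two]
    linarith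
  · intro x
    rw [rr_tent, abs_of_nonneg (by positivity)]
    have h1 : 0 < 1 + x ^ 2 := by positivity
    rw [le_div_iff₀ h1]
    rcases le_or_gt (x ^ 2) 1 with h | h
    · have h2 : Real.sinc (Real.pi * x / 2) ^ 2 ≤ 1 := by
        rw [sq_le_one_iff_abs_le_one]
        exact Real.abs_sinc_le_one _
      nlinarith [sq_nonneg (Real.sinc (Real.pi * x / 2))]
    · have hx0 : x ≠ 0 := by
        rintro rfl
        norm_num at h
      have hp := Real.pi_gt_three
      have hy0 : Real.pi * x / 2 ≠ 0 := by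
        have := Real.pi_ne_zero
        positivity
      rw [Real.sinc_of_ne_zero hy0, div_pow]
      have h3 : Real.sin (Real.pi * x / 2) ^ 2 ≤ 1 := Real.sin_sq_le_one _
      have h4 : 0 < (Real.pi * x / 2) ^ 2 := by positivity
      have h5 : Real.sin (Real.pi * x / 2) ^ 2 / (Real.pi * x / 2) ^ 2 ≤
          1 / (Real.pi * x / 2) ^ 2 := div_le_div_of_nonneg_right h3 h4.le
      have h6 : 1 / 2 * (1 / (Real.pi * x / 2) ^ 2) * (1 + x ^ 2) ≤ 2 := by
        rw [← mul_div_assoc, mul_one, div_mul_eq_mul_div, div_le_iff₀ h4]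
        have h7 : 9 * x ^ 2 ≤ Real.pi ^ 2 * x ^ 2 := by
          apply mul_le_mul_of_nonneg_right _ (sq_nonneg x)
          nlinarith
        nlinarith
      calc 1 / 2 * (Real.sin (Real.pi * x / 2) ^ 2 / (Real.pi * x / 2) ^ 2) * (1 + x ^ 2)
          ≤ 1 / 2 * (1 / (Real.pi * x / 2) ^ 2) * (1 + x ^ 2) := by gcongr
        _ ≤ 2 := h6
  · intro x
    rw [rr_tent]
    positivity
  · intro x hx
    rw [rr_tent]
    have hp := Real.pi_gt_three
    have hp2 := Real.pi_lt_d2
    have h1 : 2 / Real.pi ≤ Real.sinc (Real.pi * x / 2) := by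
      apply sinc_ge
      rw [abs_div, abs_mul, abs_of_pos Real.pi_pos, abs_two]
      apply div_le_div_of_nonneg_right _ (by norm_num)
      nlinarith
    have h2 : 0 ≤ 2 / Real.pi := by positivity
    have h3 : (2 / Real.pi) ^ 2 ≤ Real.sinc (Real.pi * x / 2) ^ 2 := pow_le_pow_left₀ h2 h1 2
    have h4 : (1 : ℝ) / 5 ≤ (2 / Real.pi) ^ 2 := by
      rw [div_pow, le_div_iff₀ (by positivity)]
      nlinarith
    linarith

end Pool.Agent.Y488.SR
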